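import Mathlib
import Pool.Agent.V114.KakCx.Euc3

/-!
# The Kakeya maximal function of functions with few shapes

`shape f b k z` is the part of the function `f` in the `b`-adic cell
`∏ [z i / b ^ k, (z i + 1) / b ^ k)` of level `k`, carried to the unit cube `[0, 1) ^ n`.

For `n ≥ 2`, `b ≥ 2` and `ε > 0` there are `Q`, `C` and `c > 0` such that for all `0 < δ < 1` there is
a set `E` of directions of measure at most `C δ ^ c`, not depending on `f`, such that for all
directions `e` outside `E`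

  `f*_δ(e) ≤ C δ ^ (-ε) P ^ Q ‖f‖_n`

where `P` is a bound for the number of shapes of `f` in the cells of each level `k`, `b ^ (-k) ≥ δ / b`.

(Theorem `strong`.)  Consequently `∫ (f*_δ) ^ n ≤ C δ ^ (-ε) P ^ Q ∫ |f| ^ n + C δ ^ c sup |f| ^ n`.
-/

open MeasureTheory Set
open scoped ENNReal

namespace Pool.Agent.Results.MP_5168f5_an.FewShapes

/-- The closed cylinder of length `1` and radius `δ` with centre `a` and axis direction `e`. -/
def tube {n : ℕ} (δ : ℝ) (a e : EuclideanSpace ℝ (Fin n)) : Set (EuclideanSpace ℝ (Fin n)) :=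
  {y | |inner ℝ (y - a) e| ≤ 1 / 2 ∧ ‖(y - a) - (inner ℝ (y - a) e) • e‖ ≤ δ}

/-- The Kakeya maximal function. -/
noncomputable def kakeyaMax {n : ℕ} (δ : ℝ) (f : EuclideanSpace ℝ (Fin n) → ℝ)
    (e : EuclideanSpace ℝ (Fin n)) : ℝ≥0∞ :=
  ⨆ a : EuclideanSpace ℝ (Fin n), (volume (tube δ a e))⁻¹ * ∫⁻ y in tube δ a e, ‖f y‖ₑ

/-- Surface measure of the unit sphere. -/
noncomputable abbrev surf (n : ℕ) : Measure (Metric.sphere (0 : EuclideanSpace ℝ (Fin n)) 1) :=
  (volume : Measure (EuclideanSpace ℝ (Fin n))).toSphere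

/-- The part of `f` in the `b`-adic cell `∏ [z i / b ^ k, (z i + 1) / b ^ k)` of level `k`, carried to
the unit cube `[0, 1) ^ n` (and zero outside). -/
noncomputable def shape {n : ℕ} (f : EuclideanSpace ℝ (Fin n) → ℝ) (b k : ℕ) (z : Fin n → ℤ) :
    (Fin n → ℝ) → ℝ :=
  fun u => open Classical in
    if ∀ i, 0 ≤ u i ∧ u i < 1 then f (WithLp.toLp 2 fun i => ((z i : ℝ) + u i) / (b : ℝ) ^ k) else 0

open Pool.Agent.V114.KakCx in
/-- Outside an exceptional set `E` of directions, of measure at most `C δ ^ c` and the same for all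
functions, the Kakeya maximal function of every function with at most `P` shapes of `b`-adic cells
of each level is at most `C δ ^ (-ε) P ^ Q ‖f‖_n`. -/
theorem result (n : ℕ) (hn : 2 ≤ n) (b : ℕ) (hb : 2 ≤ b) (ε : ℝ) (hε : 0 < ε) :
    ∃ (Q : ℕ) (C c : ℝ), 0 < C ∧ 0 < c ∧ ∀ δ : ℝ, 0 < δ → δ < 1 →
      ∃ E : Set (Metric.sphere (0 : EuclideanSpace ℝ (Fin n)) 1), MeasurableSet E ∧
        surf n E ≤ ENNReal.ofReal (C * δ ^ c) ∧
        ∀ f : EuclideanSpace ℝ (Fin n) → ℝ, Measurable f → ∀ P : ℕ,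
          (∀ k : ℕ, (b : ℝ) ^ k * δ ≤ b → (Set.range (shape f b k)).encard ≤ P) →
          ∀ r : ℝ, δ ≤ r → ∀ e ∉ E,
            kakeyaMax r f e ≤ ENNReal.ofReal (C * δ ^ (-ε)) * (P : ℝ≥0∞) ^ Q * eLpNorm f n volume := by
  obtain ⟨m, rfl⟩ : ∃ m, n = m + 1 := ⟨n - 1, by omega⟩
  have hm : 1 ≤ m := by omega
  have hb0 : 0 < b := by omega
  have hbr : (0 : ℝ) < b := by exact_mod_cast hb0
  have hbr1 : (1 : ℝ) < b := by exact_mod_cast (by omega : 1 < b)
  obtain ⟨Q, C0, c, hC0, hc, h⟩ := euc_main hm hb hε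
  refine ⟨Q, C0 * (1 + (b : ℝ) ^ ε), c, by positivity, hc, fun δ hδ hδ1 => ?_⟩
  -- the level
  have hδi : 1 < 1 / δ := by rw [lt_div_iff₀ hδ]; linarith
  obtain ⟨N, hN1, hN2⟩ : ∃ N : ℕ, 1 / δ ≤ (b : ℝ) ^ N ∧ (b : ℝ) ^ N ≤ b * (1 / δ) := by
    obtain ⟨k, hk1, hk2⟩ := exists_nat_pow_near hδi.le hbr1
    refine ⟨k + 1, hk2.le, ?_⟩
    rw [pow_succ]
    nlinarith
  have hbN : (0 : ℝ) < (b : ℝ) ^ N := by positivity
  have hNδ : 1 / (b : ℝ) ^ N ≤ δ := by
    rw [div_le_iff₀ hδ] at hN1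
    rw [div_le_iff₀ hbN]
    linarith
  have hNb : (b : ℝ) ^ N * δ ≤ b := by
    rw [mul_one_div, le_div_iff₀ hδ] at hN2
    exact hN2
  have e1 : (b : ℝ) ^ (-(c * N)) ≤ δ ^ c := by
    have : (b : ℝ) ^ (-(c * N)) = (1 / (b : ℝ) ^ N) ^ c := by
      rw [one_div, Real.inv_rpow hbN.le, ← Real.rpow_natCast, ← Real.rpow_mul hbr.le,
        Real.rpow_neg hbr.le]
      ring_nf
    rw [this]
    exact Real.rpow_le_rpow (by positivity) hNδ hc.le
  have e2 : (b : ℝ) ^ (ε * N) ≤ (b : ℝ) ^ ε * δ ^ (-ε) := by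
    have h1 : (b : ℝ) ^ (ε * N) = ((b : ℝ) ^ N) ^ ε := by
      rw [← Real.rpow_natCast, ← Real.rpow_mul hbr.le]
      ring_nf
    have h2 : (b : ℝ) ^ ε * δ ^ (-ε) = (b * (1 / δ)) ^ ε := by
      rw [Real.mul_rpow hbr.le (by positivity), one_div, Real.inv_rpow hδ.le, Real.rpow_neg hδ.le]
    rw [h1, h2]
    exact Real.rpow_le_rpow hbN.le hN2 hε.le
  obtain ⟨E, hE, hvE, hmain⟩ := h N
  refine ⟨E, hE, hvE.trans (ENNReal.ofReal_le_ofReal ?_), ?_⟩
  · have h1 : (0 : ℝ) < (b : ℝ) ^ ε := by positivity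
    have h2 : (0 : ℝ) < δ ^ c := by positivity
    calc C0 * (b : ℝ) ^ (-(c * N)) ≤ C0 * δ ^ c := by gcongr
      _ ≤ C0 * (1 + (b : ℝ) ^ ε) * δ ^ c := by
        have : 0 ≤ C0 * (b : ℝ) ^ ε * δ ^ c := by positivity
        nlinarith
  · intro f hf P hP r hr e he
    unfold kakeyaMax
    apply iSup_le
    intro a
    set g : (Fin (m + 1) → ℝ) → ℝ≥0∞ := fun x => ‖f (WithLp.toLp 2 x)‖ₑ with hg
    have hmp := PiLp.volume_preserving_toLp (Fin (m + 1))
    have hgm : Measurable g := (hf.comp hmp.measurable).enorm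
    have hshape : ∀ k ≤ N, (Set.range (shp g b k)).encard ≤ P := by
      intro k hk
      refine le_trans ?_ (hP k ?_)
      · apply encard_range_le
        intro z z' hz
        funext u
        have h1 := congrFun hz u
        simp only [shape] at h1
        simp only [shp, hg]
        by_cases hu : ∀ i, 0 ≤ u i ∧ u i < 1
        · rw [if_pos hu, if_pos hu] at h1
          rw [if_pos hu, if_pos hu, h1]
        · rw [if_neg hu, if_neg hu]
      · refine le_trans ?_ hNb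
        gcongr
        exact hbr1.le
    have h1 := hmain g hgm P hshape r (hNδ.trans hr) e e he (by
      rw [sub_self, norm_zero]; exact hδ.le.trans hr) a
    have hnorm : (∫⁻ y, g y ^ (m + 1)) ^ (1 / ((m : ℝ) + 1)) = eLpNorm f (m + 1 : ℕ) volume := by
      rw [eLpNorm_eq_lintegral_rpow_enorm_toReal (by simp) (by simp)]
      have h2 : ∫⁻ y, g y ^ (m + 1) = ∫⁻ y, ‖f y‖ₑ ^ (m + 1) := by
        have h3 := hmp.lintegral_comp (f := fun y => ‖f y‖ₑ ^ (m + 1)) (hf.enorm.pow_const _)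
        rw [← h3]
      rw [h2]
      simp only [ENNReal.toReal_natCast, ENNReal.rpow_natCast]
      push_cast
      rfl
    rw [hnorm] at h1
    refine le_trans h1 (mul_le_mul' (mul_le_mul' (ENNReal.ofReal_le_ofReal ?_) le_rfl) le_rfl)
    calc C0 * (b : ℝ) ^ (ε * N) ≤ C0 * ((b : ℝ) ^ ε * δ ^ (-ε)) := by gcongr
      _ ≤ C0 * (1 + (b : ℝ) ^ ε) * δ ^ (-ε) := by
        have : 0 ≤ C0 * δ ^ (-ε) := by positivity
        nlinarith

/-- Consequence: the estimate of the problem for bounded functions with few shapes, up to a term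
`C δ ^ c sup |f| ^ n`. -/
theorem strong (n : ℕ) (hn : 2 ≤ n) (b : ℕ) (hb : 2 ≤ b) (ε : ℝ) (hε : 0 < ε) :
    ∃ (Q : ℕ) (C c : ℝ), 0 < C ∧ 0 < c ∧ ∀ δ : ℝ, 0 < δ → δ < 1 →
      ∀ f : EuclideanSpace ℝ (Fin n) → ℝ, Measurable f → ∀ P : ℕ,
        (∀ k : ℕ, (b : ℝ) ^ k * δ ≤ b → (Set.range (shape f b k)).encard ≤ P) →
        ∀ M : ℝ≥0∞, (∀ y, ‖f y‖ₑ ≤ M) →
          ∫⁻ e, kakeyaMax δ f e ^ n ∂(surf n) ≤
            ENNReal.ofReal (C * δ ^ (-ε)) * (P : ℝ≥0∞) ^ Q * eLpNorm f n volume ^ n +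
            ENNReal.ofReal (C * δ ^ c) * M ^ n := by
  have hn0 : (0 : ℝ) < n := by positivity
  obtain ⟨Q, C, c, hC, hc, h⟩ := result n hn b hb (ε / n) (by positivity)
  set S : ℝ := (surf n Set.univ).toReal with hS
  have hSe : surf n Set.univ = ENNReal.ofReal S := (ENNReal.ofReal_toReal (measure_ne_top _ _)).symm
  have hS0 : 0 ≤ S := ENNReal.toReal_nonneg
  refine ⟨Q * n, C ^ n * S + C, c, by positivity, hc, ?_⟩
  intro δ hδ hδ1 f hf P hP M hM
  obtain ⟨E, hE, hvE, hmain⟩ := h δ hδ hδ1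
  have hmax : ∀ e : EuclideanSpace ℝ (Fin n), kakeyaMax δ f e ≤ M := by
    intro e
    unfold kakeyaMax
    apply iSup_le
    intro a
    calc (volume (tube δ a e))⁻¹ * ∫⁻ y in tube δ a e, ‖f y‖ₑ
        ≤ (volume (tube δ a e))⁻¹ * (M * volume (tube δ a e)) := by
          gcongr
          calc ∫⁻ y in tube δ a e, ‖f y‖ₑ ≤ ∫⁻ _y in tube δ a e, M := lintegral_mono hM
            _ = M * volume (tube δ a e) := by
              rw [lintegral_const, Measure.restrict_apply MeasurableSet.univ, Set.univ_inter]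
      _ = (volume (tube δ a e))⁻¹ * volume (tube δ a e) * M := by ring
      _ ≤ 1 * M := by gcongr; exact ENNReal.inv_mul_le_one _
      _ = M := one_mul _
  rw [← lintegral_add_compl _ hE, add_comm]
  set X : ℝ≥0∞ := ENNReal.ofReal (C * δ ^ (-(ε / n))) * (P : ℝ≥0∞) ^ Q * eLpNorm f n volume with hX
  apply add_le_add
  · calc ∫⁻ e in Eᶜ, kakeyaMax δ f e ^ n ∂(surf n) ≤ ∫⁻ _e in Eᶜ, X ^ n ∂(surf n) := by
          apply setLIntegral_mono' hE.compl
          intro e he
          gcongr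
          exact hmain f hf P hP δ le_rfl e he
      _ ≤ X ^ n * surf n Set.univ := by
          rw [lintegral_const, Measure.restrict_apply MeasurableSet.univ, Set.univ_inter]
          gcongr
          exact Set.subset_univ _
      _ = ENNReal.ofReal (C ^ n * S * δ ^ (-ε)) * (P : ℝ≥0∞) ^ (Q * n) *
            eLpNorm f n volume ^ n := by
          have h1 : ENNReal.ofReal (C ^ n * S * δ ^ (-ε)) =
              ENNReal.ofReal (C * δ ^ (-(ε / n))) ^ n * ENNReal.ofReal S := by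
            rw [← ENNReal.ofReal_pow (by positivity), ← ENNReal.ofReal_mul (by positivity)]
            congr 1
            rw [mul_pow, ← Real.rpow_natCast (δ ^ (-(ε / n))) n, ← Real.rpow_mul hδ.le]
            have : -(ε / n) * n = -ε := by field_simp
            rw [this]
            ring
          rw [h1, hSe, hX, mul_pow, mul_pow, ← pow_mul]
          ring
      _ ≤ _ := by
          gcongr
          linarith
  · calc ∫⁻ e in E, kakeyaMax δ f e ^ n ∂(surf n) ≤ ∫⁻ _e in E, M ^ n ∂(surf n) := by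
          apply lintegral_mono
          intro e
          have := hmax e
          dsimp only
          gcongr
      _ = surf n E * M ^ n := by
          rw [lintegral_const, Measure.restrict_apply MeasurableSet.univ, Set.univ_inter, mul_comm]
      _ ≤ ENNReal.ofReal (C * δ ^ c) * M ^ n := by gcongr
      _ ≤ _ := by
          gcongr
          have : 0 ≤ C ^ n * S := by positivity
          linarith

end Pool.Agent.Results.MP_5168f5_an.FewShapes
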