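import Pool.Agent.H160.KD.End
import Pool.Agent.Results.MP_850839_an.LossRemoval

set_option autoImplicit false

/-!
# MP_5168f5: the Kakeya maximal conjecture, and tubes which may be moved a little

Let `n ≥ 3`.  Consider all finite families of `δ`-tubes in `ℝ^n` with `δ`-separated orientations, and
the `L^q` norm of the number of tubes through a point, to be compared with
`δ ^ ((n-1)/q) N ^ (1 - 1/(q(n-1)))` for `N` tubes, `q ≥ n/(n-1)`.

* `Worst n q s`: for all families, with a factor `C δ ^ (-s)`;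
* `Average n q β s`: the same on average, when the tubes of the family are displaced by independent
  random vectors, uniformly distributed in the ball of radius `δ ^ β`;
* `Moved n q β s`: the same for some choice of displacements of the tubes, by vectors of length at
  most `δ ^ β`, which may be chosen knowing the family.

For `0 < β < 1` the optimal exponents in the last two cases are equal and are determined by the
optimal exponent in the first.  Consequently, for every `β` in `(0, 1)`, however small, the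
conjecture in `ℝ^n` holds if and only if, for all `q > n/(n-1)`, every family can be made to satisfy
the inequality, without loss, by moving every tube by at most `δ ^ β`; and also if and only if this
is so on average for random displacements.  In a range of `q` and `β` this holds unconditionally.
-/

open MeasureTheory
open scoped ENNReal

namespace Pool.Agent.Results.MP_5168f5_an.MovedTubes

/-- The space `ℝ^n`. -/
abbrev Rn (n : ℕ) : Type := EuclideanSpace ℝ (Fin n)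

/-- The `δ`-tube with centre `a` and direction `e` (a unit vector): the closed cylinder of length
`1` and radius `δ` around the segment with centre `a` and direction `e`. -/
def tube {n : ℕ} (δ : ℝ) (a e : Rn n) : Set (Rn n) :=
  {y | |inner ℝ (y - a) e| ≤ 1 / 2 ∧ ‖(y - a) - (inner ℝ (y - a) e) • e‖ ≤ δ}

/-- The Kakeya maximal function. -/
noncomputable def kakeyaMax {n : ℕ} (δ : ℝ) (f : Rn n → ℝ) (e : Rn n) : ℝ≥0∞ :=
  ⨆ a : Rn n, (volume (tube δ a e))⁻¹ * ∫⁻ y in tube δ a e, ‖f y‖ₑ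

/-- The estimate of the problem in `ℝ^n`: `‖f*_δ‖_n ≤ C δ ^ (-ε) ‖f‖_n`, for every `ε > 0` (the `L^n`
norm of `f*_δ` is taken for the surface measure of the unit sphere). -/
def MaximalEstimate (n : ℕ) : Prop :=
  ∀ ε : ℝ, 0 < ε → ∃ C : ℝ, 0 < C ∧ ∀ δ : ℝ, 0 < δ → δ < 1 →
    ∀ f : Rn n → ℝ, MemLp f n volume →
      (∫⁻ e, kakeyaMax δ f e ^ (n : ℝ) ∂(volume : Measure (Rn n)).toSphere) ^ (1 / (n : ℝ)) ≤
        ENNReal.ofReal (C * δ ^ (-ε)) * eLpNorm f n volume

/-- The `L^q` norm of the number of the `δ`-tubes with centres `a i` and directions `e i` through a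
point. -/
noncomputable def size {n : ℕ} {ι : Type} [Fintype ι] (q δ : ℝ) (a e : ι → Rn n) : ℝ≥0∞ :=
  eLpNorm (fun x => ∑ i, (tube δ (a i) (e i)).indicator (fun _ => (1 : ℝ)) x) (ENNReal.ofReal q)
    volume

/-- The conjectured bound `δ ^ ((n-1)/q) N ^ (1 - 1/(q(n-1)))` for `N` tubes, without the
constant. -/
noncomputable def rhs (n : ℕ) (q δ : ℝ) (N : ℕ) : ℝ :=
  δ ^ (((n : ℝ) - 1) / q) * (N : ℝ) ^ (1 - 1 / (q * ((n : ℝ) - 1)))

/-- `e` is a `δ`-separated family of unit vectors. -/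
def Separated {n : ℕ} {ι : Type} (δ : ℝ) (e : ι → Rn n) : Prop :=
  (∀ i, ‖e i‖ = 1) ∧ ∀ i j, i ≠ j → δ ≤ ‖e i - e j‖

/-- The tube inequality for all families, with the loss `δ ^ (-s)`. -/
def Worst (n : ℕ) (q s : ℝ) : Prop :=
  ∃ C : ℝ, 0 < C ∧ ∀ δ : ℝ, 0 < δ → δ < 1 → ∀ (ι : Type) [Fintype ι] (a e : ι → Rn n),
    Separated δ e → size q δ a e ≤ ENNReal.ofReal (C * δ ^ (-s) * rhs n q δ (Fintype.card ι))

/-- The uniform distribution on the ball of radius `ρ` around `0`. -/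
noncomputable def uniform (n : ℕ) (ρ : ℝ) : Measure (Rn n) :=
  (volume (Metric.closedBall (0 : Rn n) ρ))⁻¹ • volume.restrict (Metric.closedBall (0 : Rn n) ρ)

/-- The tube inequality, with the loss `δ ^ (-s)`, on average (in the mean of order `q`) when the
tubes of an arbitrary family are displaced by independent vectors `u i`, uniformly distributed in
the ball of radius `δ ^ β`. -/
def Average (n : ℕ) (q β s : ℝ) : Prop :=
  ∃ C : ℝ, 0 < C ∧ ∀ δ : ℝ, 0 < δ → δ < 1 → ∀ (ι : Type) [Fintype ι] (a e : ι → Rn n),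
    Separated δ e →
    ∫⁻ u : ι → Rn n, size q δ (fun i => a i + u i) e ^ q
      ∂(Measure.pi fun _ : ι => uniform n (δ ^ β)) ≤
      ENNReal.ofReal ((C * δ ^ (-s) * rhs n q δ (Fintype.card ι)) ^ q)

/-- The tube inequality, with the loss `δ ^ (-s)`, for an arbitrary family after a suitable
displacement of every tube by a vector `u i` of length at most `δ ^ β`. -/
def Moved (n : ℕ) (q β s : ℝ) : Prop :=
  ∃ C : ℝ, 0 < C ∧ ∀ δ : ℝ, 0 < δ → δ < 1 → ∀ (ι : Type) [Fintype ι] (a e : ι → Rn n),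
    Separated δ e → ∃ u : ι → Rn n, (∀ i, ‖u i‖ ≤ δ ^ β) ∧
      size q δ (fun i => a i + u i) e ≤
        ENNReal.ofReal (C * δ ^ (-s) * rhs n q δ (Fintype.card ι))

section bridge

open Pool.Agent.H160.KD (WorstC TypC MovC)
open Pool.Agent.Y254 (mult)

variable {d : ℕ}

theorem size_eq {q : ℝ} (hq0 : 0 < q) {ι : Type} [Fintype ι] (δ : ℝ) (a e : ι → Rn (d + 1)) :
    size q δ a e = (∫⁻ x, mult (fun i => Pool.Agent.Y254.tube δ (a i) (e i)) x ^ q) ^ (1 / q) :=
  Pool.Agent.Results.MP_850839_an.LossRemoval.norm_eq hq0 δ a e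

theorem size_pow {q : ℝ} (hq0 : 0 < q) {ι : Type} [Fintype ι] (δ : ℝ) (a e : ι → Rn (d + 1)) :
    size q δ a e ^ q = ∫⁻ x, mult (fun i => Pool.Agent.Y254.tube δ (a i) (e i)) x ^ q := by
  rw [size_eq hq0, ← ENNReal.rpow_mul, one_div, inv_mul_cancel₀ hq0.ne', ENNReal.rpow_one]

theorem rhs_root {q : ℝ} (hq0 : 0 < q) {K δ : ℝ} (hK : 0 ≤ K) (hδ : 0 ≤ δ) (N : ℕ) :
    (ENNReal.ofReal (K ^ q * (δ ^ d * (N : ℝ) ^ (q - 1 / (d : ℝ))))) ^ (1 / q) =
      ENNReal.ofReal (K * rhs (d + 1) q δ N) := by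
  have h1 := Pool.Agent.Results.MP_850839_an.LossRemoval.rhs_eq (d := d) hq0 (K := K ^ q) (δ := δ)
    (N := N) (by positivity) hδ (by positivity)
  rw [h1]
  congr 1
  have h2 : (K ^ q) ^ (1 / q) = K := by
    rw [← Real.rpow_mul hK, mul_one_div_cancel hq0.ne', Real.rpow_one]
  rw [h2, mul_assoc]
  rfl

theorem rhs_nonneg {q δ : ℝ} (hδ : 0 ≤ δ) (n N : ℕ) : 0 ≤ rhs n q δ N := by
  unfold rhs
  positivity

theorem rhs_pow {q : ℝ} (hq0 : 0 < q) {K δ : ℝ} (hK : 0 ≤ K) (hδ : 0 ≤ δ) (N : ℕ) :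
    ENNReal.ofReal ((K * rhs (d + 1) q δ N) ^ q) =
      ENNReal.ofReal (K ^ q * (δ ^ d * (N : ℝ) ^ (q - 1 / (d : ℝ)))) := by
  rw [← ENNReal.ofReal_rpow_of_nonneg (mul_nonneg hK (rhs_nonneg hδ _ _)) hq0.le,
    ← rhs_root hq0 hK hδ, ← ENNReal.rpow_mul, one_div_mul_cancel hq0.ne', ENNReal.rpow_one]

theorem size_le {q : ℝ} (hq0 : 0 < q) {K δ : ℝ} (hK : 0 ≤ K) (hδ : 0 ≤ δ) {ι : Type} [Fintype ι]
    (a e : ι → Rn (d + 1)) :
    size q δ a e ≤ ENNReal.ofReal (K * rhs (d + 1) q δ (Fintype.card ι)) ↔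
      ∫⁻ x, mult (fun i => Pool.Agent.Y254.tube δ (a i) (e i)) x ^ q ≤
        ENNReal.ofReal (K ^ q * (δ ^ d * (Fintype.card ι : ℝ) ^ (q - 1 / (d : ℝ)))) := by
  rw [size_eq hq0, ← rhs_root hq0 hK hδ]
  exact ENNReal.rpow_le_rpow_iff (by positivity)

theorem const1 {q : ℝ} {C δ s : ℝ} (hC : 0 ≤ C) (hδ : 0 ≤ δ) :
    (C * δ ^ (-s)) ^ q = C ^ q * δ ^ (-(q * s)) := by
  rw [Real.mul_rpow hC (by positivity), ← Real.rpow_mul hδ]
  congr 2
  ring

theorem const2 {q : ℝ} (hq0 : 0 < q) {C δ s : ℝ} (hC : 0 ≤ C) (hδ : 0 ≤ δ) :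
    (C ^ (1 / q) * δ ^ (-s)) ^ q = C * δ ^ (-(q * s)) := by
  rw [const1 (by positivity) hδ, ← Real.rpow_mul hC, one_div_mul_cancel hq0.ne', Real.rpow_one]

theorem worst_iff {q : ℝ} (hq0 : 0 < q) (s : ℝ) : Worst (d + 1) q s ↔
    ∃ C : ℝ, 0 < C ∧ ∀ δ : ℝ, 0 < δ → δ < 1 → WorstC d q δ (C * δ ^ (-(q * s))) := by
  constructor
  · rintro ⟨C, hC, h⟩
    refine ⟨C ^ q, by positivity, ?_⟩
    intro δ hδ hδ1 ι _ a e he hsep
    have h1 := h δ hδ hδ1 ι a e ⟨he, hsep⟩
    rw [size_le hq0 (by positivity) hδ.le, const1 hC.le hδ.le] at h1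
    exact h1
  · rintro ⟨C, hC, h⟩
    refine ⟨C ^ (1 / q), by positivity, ?_⟩
    intro δ hδ hδ1 ι _ a e hs
    rw [size_le hq0 (by positivity) hδ.le, const2 hq0 hC.le hδ.le]
    exact h δ hδ hδ1 ι a e hs.1 hs.2

theorem average_iff {q : ℝ} (hq0 : 0 < q) (β s : ℝ) : Average (d + 1) q β s ↔
    ∃ C : ℝ, 0 < C ∧ ∀ δ : ℝ, 0 < δ → δ < 1 → TypC d q δ (δ ^ β) (C * δ ^ (-(q * s))) := by
  constructor
  · rintro ⟨C, hC, h⟩
    refine ⟨C ^ q, by positivity, ?_⟩
    intro δ hδ hδ1 ι _ a e he hsep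
    have h1 := h δ hδ hδ1 ι a e ⟨he, hsep⟩
    rw [rhs_pow hq0 (by positivity) hδ.le, const1 hC.le hδ.le] at h1
    simp only [size_pow hq0] at h1
    exact h1
  · rintro ⟨C, hC, h⟩
    refine ⟨C ^ (1 / q), by positivity, ?_⟩
    intro δ hδ hδ1 ι _ a e hs
    rw [rhs_pow hq0 (by positivity) hδ.le, const2 hq0 hC.le hδ.le]
    simp only [size_pow hq0]
    exact h δ hδ hδ1 ι a e hs.1 hs.2

theorem moved_iff {q : ℝ} (hq0 : 0 < q) (β s : ℝ) : Moved (d + 1) q β s ↔
    ∃ C : ℝ, 0 < C ∧ ∀ δ : ℝ, 0 < δ → δ < 1 → MovC d q δ (δ ^ β) (C * δ ^ (-(q * s))) := by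
  constructor
  · rintro ⟨C, hC, h⟩
    refine ⟨C ^ q, by positivity, ?_⟩
    intro δ hδ hδ1 ι _ a e he hsep
    obtain ⟨u, hu, h1⟩ := h δ hδ hδ1 ι a e ⟨he, hsep⟩
    rw [size_le hq0 (by positivity) hδ.le, const1 hC.le hδ.le] at h1
    exact ⟨u, hu, h1⟩
  · rintro ⟨C, hC, h⟩
    refine ⟨C ^ (1 / q), by positivity, ?_⟩
    intro δ hδ hδ1 ι _ a e hs
    obtain ⟨u, hu, h1⟩ := h δ hδ hδ1 ι a e hs.1 hs.2
    refine ⟨u, hu, ?_⟩
    rw [size_le hq0 (by positivity) hδ.le, const2 hq0 hC.le hδ.le]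
    exact h1

theorem moved_of_average {q : ℝ} (hq0 : 0 < q) {β s : ℝ} (h : Average (d + 1) q β s) :
    Moved (d + 1) q β s := by
  rw [average_iff hq0] at h
  rw [moved_iff hq0]
  obtain ⟨C, hC, h⟩ := h
  exact ⟨C, hC, fun δ hδ hδ1 => Pool.Agent.H160.KD.mov_of_typ (by positivity) (h δ hδ hδ1)⟩

end bridge

/-- **Moving the tubes.**  Let `n ≥ 3`. -/
theorem result (n : ℕ) (hn : 3 ≤ n) :
    -- (1) the exact relation between the exponents of the losses
    (∀ q β s : ℝ, (n : ℝ) / (n - 1) ≤ q → 0 < β → β < 1 →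
      (1 - β) * ((n : ℝ) - 1 - n / q) ≤ β * s →
      (Worst n q s ↔ Average n q β (β * s - (1 - β) * ((n : ℝ) - 1 - n / q))) ∧
      (Worst n q s ↔ Moved n q β (β * s - (1 - β) * ((n : ℝ) - 1 - n / q)))) ∧
    -- (2) for every `β`: the conjecture in `ℝ^n` is equivalent to the inequality without loss for
    -- moved tubes, for all `q > n/(n-1)`, and to the inequality for `q = n/(n-1)` with small losses
    (∀ β : ℝ, 0 < β → β < 1 →
      (MaximalEstimate n ↔ ∀ q : ℝ, (n : ℝ) / (n - 1) < q → Average n q β 0) ∧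
      (MaximalEstimate n ↔ ∀ q : ℝ, (n : ℝ) / (n - 1) < q → Moved n q β 0) ∧
      (MaximalEstimate n ↔ ∀ ε : ℝ, 0 < ε → Moved n ((n : ℝ) / (n - 1)) β ε)) ∧
    -- (3) what is true unconditionally
    (∀ q β : ℝ, (n : ℝ) / (n - 1) < q → 0 < β → β < 1 →
      β * (((n : ℝ) - 2) * (q - 1)) < 2 * (((n : ℝ) - 1) * q - n) →
      Average n q β 0 ∧ Moved n q β 0) := by
  obtain ⟨d, rfl⟩ : ∃ d, n = d + 1 := ⟨n - 1, by omega⟩
  have hd : 2 ≤ d := by omega
  have hd2 : (2 : ℝ) ≤ d := by exact_mod_cast hd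
  have hd0 : (0 : ℝ) < d := by linarith
  have hcast : (((d + 1 : ℕ) : ℝ)) = (d : ℝ) + 1 := by push_cast; ring
  have e1 : (((d + 1 : ℕ) : ℝ)) / (((d + 1 : ℕ) : ℝ) - 1) = 1 + 1 / (d : ℝ) := by
    push_cast
    rw [add_sub_cancel_right]
    field_simp
  have hp0 : 0 < 1 / (d : ℝ) := by positivity
  have A : ∀ q β s : ℝ, 1 + 1 / (d : ℝ) ≤ q → 0 < β → β < 1 →
      (1 - β) * (((d + 1 : ℕ) : ℝ) - 1 - ((d + 1 : ℕ) : ℝ) / q) ≤ β * s →
      (Worst (d + 1) q s → Average (d + 1) q β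
        (β * s - (1 - β) * (((d + 1 : ℕ) : ℝ) - 1 - ((d + 1 : ℕ) : ℝ) / q))) ∧
      (Moved (d + 1) q β (β * s - (1 - β) * (((d + 1 : ℕ) : ℝ) - 1 - ((d + 1 : ℕ) : ℝ) / q)) →
        Worst (d + 1) q s) := by
    intro q β s hq hβ0 hβ1 hs
    have hq0 : 0 < q := by linarith
    set t : ℝ := β * s - (1 - β) * (((d + 1 : ℕ) : ℝ) - 1 - ((d + 1 : ℕ) : ℝ) / q) with ht
    have ht0 : 0 ≤ t := by rw [ht]; linarith
    have hqt : q * t = β * (q * s) - (1 - β) * ((d : ℝ) * q - d - 1) := by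
      rw [ht, hcast]
      field_simp
      ring
    have hG0 : 0 ≤ (d : ℝ) * q - d - 1 := by
      have h1 : (d : ℝ) * (1 + 1 / d) ≤ d * q := by gcongr
      have h2 : (d : ℝ) * (1 + 1 / d) = d + 1 := by field_simp
      linarith
    have hqs : 0 ≤ q * s := by
      have h1 : 0 ≤ β * (q * s) := by
        have h2 : 0 ≤ q * t := by positivity
        have h3 : 0 ≤ (1 - β) * ((d : ℝ) * q - d - 1) := mul_nonneg (by linarith) hG0
        linarith
      exact nonneg_of_mul_nonneg_right h1 hβ0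
    constructor
    · intro h
      rw [worst_iff hq0] at h
      rw [average_iff hq0]
      exact Pool.Agent.H160.KD.up_beta (by omega) hq hqs hβ0 hβ1 h (by positivity) (by linarith)
    · intro h
      rw [moved_iff hq0] at h
      rw [worst_iff hq0]
      exact Pool.Agent.H160.KD.down_beta (by omega) hq hβ0 hβ1 (by positivity) h (by linarith)
  -- the conjecture for the tubes
  have hTubes : ∀ q : ℝ, Pool.Agent.Results.MP_850839_an.LossRemoval.Tubes (d + 1) q ↔
      Worst (d + 1) q 0 := by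
    intro q
    constructor
    · rintro ⟨C, hC, h⟩
      refine ⟨C, hC, ?_⟩
      intro δ hδ hδ1 ι _ a e hs
      refine (h δ hδ hδ1 ι a e hs.1 hs.2).trans (le_of_eq ?_)
      congr 1
      rw [neg_zero, Real.rpow_zero, mul_one, mul_assoc]
      rfl
    · rintro ⟨C, hC, h⟩
      refine ⟨C, hC, ?_⟩
      intro δ hδ hδ1 ι _ a e he hsep
      refine (h δ hδ hδ1 ι a e ⟨he, hsep⟩).trans (le_of_eq ?_)
      congr 1
      rw [neg_zero, Real.rpow_zero, mul_one, mul_assoc]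
      rfl
  obtain ⟨hrem, hQ1, hMax, -⟩ :=
    Pool.Agent.Results.MP_850839_an.LossRemoval.result (d + 1) hn
  have hME : MaximalEstimate (d + 1) ↔
      ∀ q : ℝ, (((d + 1 : ℕ) : ℝ)) / (((d + 1 : ℕ) : ℝ) - 1) < q → Worst (d + 1) q 0 := by
    constructor
    · intro h q hq
      exact (hTubes q).1 (hMax.2 h q hq)
    · intro h
      exact hMax.1 fun q hq => (hTubes q).2 (h q hq)
  -- no loss in the worst case gives no loss on average
  have B : (∀ q : ℝ, 1 + 1 / (d : ℝ) < q → Worst (d + 1) q 0) →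
      ∀ q β : ℝ, 1 + 1 / (d : ℝ) < q → 0 < β → β < 1 → Average (d + 1) q β 0 := by
    intro h q β hq hβ0 hβ1
    have hq0 : 0 < q := by linarith
    have h1 := h q hq
    rw [worst_iff hq0] at h1
    rw [average_iff hq0]
    have hG0 : 0 ≤ (d : ℝ) * q - d - 1 := by
      have h1 : (d : ℝ) * (1 + 1 / d) ≤ d * q := by gcongr
      have h2 : (d : ℝ) * (1 + 1 / d) = d + 1 := by field_simp
      linarith
    refine Pool.Agent.H160.KD.up_beta (σ := q * 0) (by omega) hq.le (by simp) hβ0 hβ1 h1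
      (by simp) ?_
    have h3 : 0 ≤ (1 - β) * ((d : ℝ) * q - d - 1) := mul_nonneg (by linarith) hG0
    have h4 : β * (q * 0) = 0 := by ring
    have h5 : q * 0 = 0 := by ring
    rw [h4, h5]
    linarith
  -- small losses for the exponent `n/(n-1)`
  have hLoss : (∀ ε : ℝ, 0 < ε → Worst (d + 1) (1 + 1 / (d : ℝ)) ε) →
      ∀ q : ℝ, 1 + 1 / (d : ℝ) < q → Worst (d + 1) q 0 := by
    intro h q hq
    refine (hTubes q).1 (hrem (1 + 1 / (d : ℝ)) q (by rw [e1]) hq ?_)
    intro ε hε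
    obtain ⟨C, hC, hW⟩ := h ε hε
    refine ⟨C, hC, ?_⟩
    intro δ hδ hδ1 ι _ a e he hsep
    refine (hW δ hδ hδ1 ι a e ⟨he, hsep⟩).trans (le_of_eq ?_)
    congr 1
    unfold rhs
    ring
  have hg0 : (((d + 1 : ℕ) : ℝ)) - 1 - (((d + 1 : ℕ) : ℝ)) / (1 + 1 / (d : ℝ)) = 0 := by
    rw [hcast]
    field_simp
    ring
  have hWmono : ∀ q s s' : ℝ, s ≤ s' → Worst (d + 1) q s → Worst (d + 1) q s' := by
    rintro q s s' hss ⟨C, hC, h⟩
    refine ⟨C, hC, ?_⟩
    intro δ hδ hδ1 ι _ a e hs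
    refine (h δ hδ hδ1 ι a e hs).trans (ENNReal.ofReal_le_ofReal ?_)
    have h3 : δ ^ (-s) ≤ δ ^ (-s') :=
      Real.rpow_le_rpow_of_exponent_ge hδ hδ1.le (by linarith)
    have h4 := rhs_nonneg (q := q) hδ.le (d + 1) (Fintype.card ι)
    gcongr
  -- no loss after moving the tubes gives the conjecture
  have D : ∀ β : ℝ, 0 < β → β < 1 → (∀ q : ℝ, 1 + 1 / (d : ℝ) < q → Moved (d + 1) q β 0) →
      ∀ q : ℝ, 1 + 1 / (d : ℝ) < q → Worst (d + 1) q 0 := by
    intro β hβ0 hβ1 h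
    apply hLoss
    intro ε hε
    set q0 : ℝ := 1 + 1 / (d : ℝ) with hq0def
    have hq00 : 0 < q0 := by rw [hq0def]; positivity
    set q : ℝ := q0 + ε * β * q0 / d with hq
    have hq01 : q0 < q := by
      have : 0 < ε * β * q0 / d := by positivity
      rw [hq]; linarith
    have hqpos : 0 < q := by linarith
    set s : ℝ := (1 - β) * ((((d + 1 : ℕ) : ℝ)) - 1 - (((d + 1 : ℕ) : ℝ)) / q) / β with hs
    have hβs : β * s = (1 - β) * ((((d + 1 : ℕ) : ℝ)) - 1 - (((d + 1 : ℕ) : ℝ)) / q) := by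
      rw [hs]; field_simp
    have h1 := (A q β s hq01.le hβ0 hβ1 (by rw [hβs])).2
    have h2 : β * s - (1 - β) * ((((d + 1 : ℕ) : ℝ)) - 1 - (((d + 1 : ℕ) : ℝ)) / q) = 0 := by
      rw [hβs]; ring
    rw [h2] at h1
    have h3 := h1 (h q hq01)
    rw [worst_iff hqpos] at h3
    have h4 := Pool.Agent.H160.KD.endp (q' := q0) le_rfl hq01.le h3
    rw [worst_iff hq00]
    have h5 : q * s + d * (q - q0) = q0 * ε := by
      have h6 : q * s = (1 - β) * (d * q - d - 1) / β := by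
        rw [hs, hcast]
        field_simp
        ring
      have h7 : (d : ℝ) * q - d - 1 = d * (q - q0) := by
        rw [hq0def]
        field_simp
        ring
      have h8 : (d : ℝ) * (q - q0) = ε * β * q0 := by
        rw [hq]
        field_simp
        ring
      rw [h6, h7, h8]
      field_simp
      ring
    rw [h5] at h4
    exact h4
  rw [e1]
  rw [e1] at hME
  refine ⟨?_, ?_, ?_⟩
  · intro q β s hq hβ0 hβ1 hs
    have hq0 : 0 < q := by linarith
    obtain ⟨h1, h2⟩ := A q β s hq hβ0 hβ1 hs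
    exact ⟨⟨h1, fun h => h2 (moved_of_average hq0 h)⟩, ⟨fun h => moved_of_average hq0 (h1 h), h2⟩⟩
  · intro β hβ0 hβ1
    rw [hME]
    refine ⟨⟨fun h q hq => B h q β hq hβ0 hβ1, fun h => D β hβ0 hβ1 fun q hq => ?_⟩,
      ⟨fun h q hq => ?_, D β hβ0 hβ1⟩, ⟨fun h ε hε => ?_, fun h => hLoss fun ε hε => ?_⟩⟩
    · exact moved_of_average (by linarith) (h q hq)
    · exact moved_of_average (by linarith) (B h q β hq hβ0 hβ1)
    · -- the conjecture gives small losses at the end of the range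
      have h1 : Worst (d + 1) (1 + 1 / (d : ℝ)) (ε / β) := by
        have h2 := hQ1.1 (fun q hq => (hTubes q).2 (h q (by rwa [e1] at hq)))
        rw [e1] at h2
        obtain ⟨C, hC, hW⟩ := h2 (ε / β) (by positivity)
        refine ⟨C, hC, ?_⟩
        intro δ hδ hδ1 ι _ a e hs
        refine (hW δ hδ hδ1 ι a e hs.1 hs.2).trans (le_of_eq ?_)
        congr 1
        unfold rhs
        ring
      have h3 := (A (1 + 1 / (d : ℝ)) β (ε / β) le_rfl hβ0 hβ1 (by
        rw [hg0]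
        have : 0 < β * (ε / β) := by positivity
        linarith)).1 h1
      have h4 : β * (ε / β) - (1 - β) * ((((d + 1 : ℕ) : ℝ)) - 1 -
          (((d + 1 : ℕ) : ℝ)) / (1 + 1 / (d : ℝ))) = ε := by
        rw [hg0]
        field_simp
        ring
      rw [h4] at h3
      exact moved_of_average (by positivity) h3
    · have h3 := (A (1 + 1 / (d : ℝ)) β ε le_rfl hβ0 hβ1 (by
        rw [hg0]
        have : 0 < β * ε := by positivity
        linarith)).2
      have h4 : β * ε - (1 - β) * ((((d + 1 : ℕ) : ℝ)) - 1 -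
          (((d + 1 : ℕ) : ℝ)) / (1 + 1 / (d : ℝ))) = β * ε := by
        rw [hg0]; ring
      rw [h4] at h3
      exact h3 (h (β * ε) (by positivity))
  · intro q β hq hβ0 hβ1 hβ
    have hq0 : 0 < q := by linarith
    have h1 : Average (d + 1) q β 0 := by
      rw [average_iff hq0]
      have h2 := Pool.Agent.H160.KD.uncond hd hq hβ0 hβ1 (by
        rw [hcast] at hβ
        have h3 : (d : ℝ) + 1 - 2 = d - 1 := by ring
        have h4 : (d : ℝ) + 1 - 1 = d := by ring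
        rw [h3, h4] at hβ
        linarith)
      simpa using h2
    exact ⟨h1, moved_of_average hq0 h1⟩

end Pool.Agent.Results.MP_5168f5_an.MovedTubes
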