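import Pool.Agent.Y254.EL.Dual3

/-!
# Q1 is equivalent to the maximal estimates without any loss below the critical exponent

`n ≥ 3`, `c > 1`, `p = 1 + (n - 1) / c < n`.  `LossFree n c` says that the Kakeya maximal function
satisfies the estimate `‖f*_δ‖_p ≤ C δ ^ (1 - n / p) ‖f‖_p` without any loss, and its stronger weak
type form `L^p → L^(c p, ∞)`, which is scale invariant (`c p = (n - 1) p'`).

(1) Loss removal: the estimate of the problem in `ℝ^n` (critical exponent `p = n`, with losses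
`δ ^ (-ε)` for all `ε > 0`) holds if and only if `LossFree n c` holds for all `c > 1`.
(2) Unconditionally, `LossFree n c` holds for `c > 2 (n - 1) / n`, that is, in the open range
`p < (n + 2) / 2` of Wolff's estimate.

The two directions of (1) are theorems of the starting library that no file used
(`Pool.Agent.Y254.EL.sub_of_crit`, `crit_of_sub`), and so is (2) (`Pool.Agent.Y244.WR.wolff_max`).
-/

set_option autoImplicit false

open MeasureTheory
open scoped ENNReal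

namespace Pool.Agent.Results.MP_5168f5_an.SubcriticalWithoutLoss

/-- The closed cylinder of length `1` and radius `δ` with centre `a` and axis direction `e`. -/
def tube {n : ℕ} (δ : ℝ) (a e : EuclideanSpace ℝ (Fin n)) : Set (EuclideanSpace ℝ (Fin n)) :=
  {y | |inner ℝ (y - a) e| ≤ 1 / 2 ∧ ‖(y - a) - (inner ℝ (y - a) e) • e‖ ≤ δ}

/-- The Kakeya maximal function. -/
noncomputable def kakeyaMax {n : ℕ} (δ : ℝ) (f : EuclideanSpace ℝ (Fin n) → ℝ)
    (e : EuclideanSpace ℝ (Fin n)) : ℝ≥0∞ :=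
  ⨆ a : EuclideanSpace ℝ (Fin n), (volume (tube δ a e))⁻¹ * ∫⁻ y in tube δ a e, ‖f y‖ₑ

/-- Surface measure of the unit sphere. -/
noncomputable abbrev surf (n : ℕ) : Measure (Metric.sphere (0 : EuclideanSpace ℝ (Fin n)) 1) :=
  (volume : Measure (EuclideanSpace ℝ (Fin n))).toSphere

/-- The estimate of the problem in `ℝ^n`: `‖f*_δ‖_n ≤ C δ ^ (-ε) ‖f‖_n`, for every `ε > 0`. -/
def Critical (n : ℕ) : Prop :=
  ∀ ε : ℝ, 0 < ε → ∃ C : ℝ, 0 < C ∧ ∀ δ : ℝ, 0 < δ → δ < 1 →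
    ∀ f : EuclideanSpace ℝ (Fin n) → ℝ, MemLp f n volume →
      (∫⁻ e, kakeyaMax δ f e ^ (n : ℝ) ∂(surf n)) ^ (1 / (n : ℝ)) ≤
        ENNReal.ofReal (C * δ ^ (-ε)) * eLpNorm f n volume

/-- The estimates without loss at the exponent `p = 1 + (n - 1) / c`: strong type `L^p → L^p` and weak
type `L^p → L^(c p, ∞)`. -/
def LossFree (n : ℕ) (c : ℝ) : Prop :=
  ∃ C : ℝ, 0 < C ∧ ∀ δ : ℝ, 0 < δ → δ < 1 → ∀ p : ℝ, p = 1 + ((n : ℝ) - 1) / c →
    ∀ f : EuclideanSpace ℝ (Fin n) → ℝ, AEMeasurable f volume →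
      (∫⁻ e, kakeyaMax δ f e ^ p ∂(surf n) ≤
        ENNReal.ofReal (C * δ ^ (-((n : ℝ) - p))) * ∫⁻ y, ‖f y‖ₑ ^ p) ∧
      (∀ l : ℝ, 0 < l → surf n {e | ENNReal.ofReal l < kakeyaMax δ f e} ≤
        ENNReal.ofReal (C * δ ^ (-((c - 1) * ((n : ℝ) - 1))) * l ^ (-(c * p))) *
          (∫⁻ y, ‖f y‖ₑ ^ p) ^ c)

theorem lossFree_of {d : ℕ} {c : ℝ} (hc1 : 1 < c)
    (h : Pool.Agent.Y244.HM.WeakP d c ∧ Pool.Agent.Y244.HM.StrongP d c) : LossFree (d + 1) c := by
  obtain ⟨⟨C2, hC2, h2⟩, ⟨C1, hC1, h1⟩⟩ := h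
  refine ⟨C1 + C2, by positivity, ?_⟩
  intro δ hδ hδ1 p hp f hf
  have e1 : (((d + 1 : ℕ) : ℝ) - 1) = d := by push_cast; ring
  rw [e1] at hp
  subst hp
  refine ⟨?_, ?_⟩
  · refine (h1 δ hδ hδ1 (fun y => ‖f y‖ₑ) hf.enorm).trans (mul_le_mul_left ?_ _)
    apply ENNReal.ofReal_le_ofReal
    have e3 : -((((d + 1 : ℕ) : ℝ)) - (1 + (d : ℝ) / c)) =
        -((d : ℝ) - (d : ℝ) / c) := by push_cast; ring
    rw [e3]
    have := Real.rpow_pos_of_pos hδ (-((d : ℝ) - (d : ℝ) / c))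
    nlinarith
  · intro l hl
    refine (h2 δ hδ hδ1 (fun y => ‖f y‖ₑ) hf.enorm l hl).trans (mul_le_mul_left ?_ _)
    apply ENNReal.ofReal_le_ofReal
    have hc0 : c ≠ 0 := by linarith
    have e4 : -(c * (1 + (d : ℝ) / c)) = -((d : ℝ) + c) := by
      field_simp
      ring
    rw [e1, e4]
    have h3 := Real.rpow_pos_of_pos hδ (-((c - 1) * (d : ℝ)))
    have h4 := Real.rpow_pos_of_pos hl (-((d : ℝ) + c))
    have h5 := mul_pos h3 h4
    nlinarith

open Pool.Agent.Y254.EL in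
theorem km_of {d : ℕ} (h : Critical (d + 1)) (ε : ℝ) (hε : 0 < ε) : ∃ C : ℝ, 0 ≤ C ∧ KM d ε C := by
  have hn0 : (0 : ℝ) < (d : ℝ) + 1 := by positivity
  obtain ⟨C, hC, hcr⟩ := h (ε / ((d : ℝ) + 1)) (by positivity)
  refine ⟨C ^ ((d : ℝ) + 1), by positivity, ?_⟩
  intro δ hδ hδ1 f hf hft
  have hcast : (((d + 1 : ℕ) : ℝ)) = (d : ℝ) + 1 := by push_cast; ring
  set g : EuclideanSpace ℝ (Fin (d + 1)) → ℝ := fun x => (f x).toReal with hg
  have hgm : Measurable g := hf.ennreal_toReal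
  have hge : ∀ x, ‖g x‖ₑ = f x := by
    intro x
    rw [hg, Real.enorm_of_nonneg ENNReal.toReal_nonneg, ENNReal.ofReal_toReal (hft x)]
  have hkm : ∀ e, kakeyaMax δ g e = Pool.Agent.W46.HM.kmax δ f e := by
    intro e
    unfold kakeyaMax Pool.Agent.W46.HM.kmax
    simp only [hge]
    rfl
  by_cases htop : ∫⁻ y, f y ^ ((d : ℝ) + 1) = ⊤
  · rw [htop, ENNReal.mul_top]
    · exact le_top
    · exact (ENNReal.ofReal_pos.2 (by positivity)).ne'
  have hnorm : eLpNorm g (d + 1 : ℕ) volume = (∫⁻ y, f y ^ ((d : ℝ) + 1)) ^ (1 / ((d : ℝ) + 1)) := by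
    rw [eLpNorm_eq_lintegral_rpow_enorm_toReal (by simp) (by simp)]
    simp only [hge, ENNReal.toReal_natCast, hcast]
  have hmem : MemLp g (d + 1 : ℕ) volume := by
    refine ⟨hgm.aestronglyMeasurable, ?_⟩
    rw [hnorm]
    exact ENNReal.rpow_lt_top_of_nonneg (by positivity) htop
  have h1 := hcr δ hδ hδ1 g hmem
  rw [hnorm, hcast] at h1
  have h2 := ENNReal.rpow_le_rpow h1 hn0.le
  rw [← ENNReal.rpow_mul, ENNReal.mul_rpow_of_nonneg _ _ hn0.le, ← ENNReal.rpow_mul,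
    one_div, inv_mul_cancel₀ hn0.ne', ENNReal.rpow_one, ENNReal.rpow_one,
    ENNReal.ofReal_rpow_of_nonneg (by positivity) hn0.le,
    Real.mul_rpow hC.le (by positivity), ← Real.rpow_mul hδ.le] at h2
  have e1 : -(ε / ((d : ℝ) + 1)) * ((d : ℝ) + 1) = -ε := by field_simp
  rw [e1] at h2
  simp only [hkm] at h2
  exact h2

open Pool.Agent.Y254.EL in
theorem critical_of {d : ℕ} (hd : 1 ≤ d) (h : ∀ c : ℝ, 1 < c → LossFree (d + 1) c) :
    Critical (d + 1) := by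
  intro ε hε
  have hn0 : (0 : ℝ) < (d : ℝ) + 1 := by positivity
  have hcast : (((d + 1 : ℕ) : ℝ)) = (d : ℝ) + 1 := by push_cast; ring
  obtain ⟨C, hC, hs⟩ := h (1 + ε) (by linarith)
  refine ⟨C ^ (1 / ((d : ℝ) + 1)), by positivity, ?_⟩
  intro δ hδ hδ1 f hf
  have h0 : ∀ f : EuclideanSpace ℝ (Fin (d + 1)) → ℝ≥0∞, AEMeasurable f volume → (∀ x, f x ≠ ∞) →
      ∫⁻ e : Metric.sphere (0 : EuclideanSpace ℝ (Fin (d + 1))) 1,
        Pool.Agent.W46.HM.kmax δ f e ^ (1 + (d : ℝ) / (1 + ε)) ∂(sg d) ≤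
      ENNReal.ofReal (C * δ ^ (-((d : ℝ) - (d : ℝ) / (1 + ε)))) *
        ∫⁻ y, f y ^ (1 + (d : ℝ) / (1 + ε)) := by
    intro f hf hft
    have hge : ∀ x, ‖(f x).toReal‖ₑ = f x := by
      intro x
      rw [Real.enorm_of_nonneg ENNReal.toReal_nonneg, ENNReal.ofReal_toReal (hft x)]
    have h1 := (hs δ hδ hδ1 (1 + (d : ℝ) / (1 + ε)) (by push_cast; ring)
      (fun x => (f x).toReal) hf.ennreal_toReal).1
    have hkm : ∀ e, kakeyaMax δ (fun x => (f x).toReal) e = Pool.Agent.W46.HM.kmax δ f e := by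
      intro e
      unfold kakeyaMax Pool.Agent.W46.HM.kmax
      simp only [hge]
      rfl
    simp only [hge, hkm] at h1
    have e3 : -((((d + 1 : ℕ) : ℝ)) - (1 + (d : ℝ) / (1 + ε))) =
        -((d : ℝ) - (d : ℝ) / (1 + ε)) := by push_cast; ring
    rw [e3] at h1
    exact h1
  have h1 := crit_of_sub (by linarith) hd hδ hδ1 h0 (fun y => ‖f y‖ₑ)
    hf.1.aemeasurable.enorm (fun x => by simp)
  have hnorm : eLpNorm f (d + 1 : ℕ) volume =
      (∫⁻ y, ‖f y‖ₑ ^ ((d : ℝ) + 1)) ^ (1 / ((d : ℝ) + 1)) := by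
    rw [eLpNorm_eq_lintegral_rpow_enorm_toReal (by simp) (by simp)]
    simp only [ENNReal.toReal_natCast, hcast]
  rw [hnorm, hcast]
  have h2 := ENNReal.rpow_le_rpow h1 (by positivity : (0 : ℝ) ≤ 1 / ((d : ℝ) + 1))
  rw [ENNReal.mul_rpow_of_nonneg _ _ (by positivity),
    ENNReal.ofReal_rpow_of_nonneg (by positivity) (by positivity),
    Real.mul_rpow hC.le (by positivity), ← Real.rpow_mul hδ.le] at h2
  refine (le_of_eq rfl).trans (h2.trans ?_)
  refine mul_le_mul_left ?_ _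
  apply ENNReal.ofReal_le_ofReal
  refine mul_le_mul_of_nonneg_left ?_ (by positivity)
  apply Real.rpow_le_rpow_of_exponent_ge hδ hδ1.le
  have e4 : (d : ℝ) - (d : ℝ) / (1 + ε) = d * ε / (1 + ε) := by field_simp; ring
  rw [e4]
  have h5 : (d : ℝ) * ε / (1 + ε) * (1 / ((d : ℝ) + 1)) ≤ ε := by
    rw [div_mul_div_comm, div_le_iff₀ (by positivity)]
    have : (0 : ℝ) ≤ d := Nat.cast_nonneg d
    nlinarith [mul_nonneg this hε.le, mul_nonneg this (mul_nonneg hε.le hε.le)]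
  linarith

/-- For every `n ≥ 3`: (1) the estimate of the problem in `ℝ^n` holds if and only if for every `c > 1`
the estimates without loss hold at `p = 1 + (n - 1) / c`; (2) the estimates without loss hold for every
`c > 2 (n - 1) / n`, that is `p < (n + 2) / 2`. -/
theorem result (n : ℕ) (hn : 3 ≤ n) :
    (Critical n ↔ ∀ c : ℝ, 1 < c → LossFree n c) ∧
    ∀ c : ℝ, 2 * ((n : ℝ) - 1) / n < c → LossFree n c := by
  obtain ⟨d, rfl⟩ : ∃ d, n = d + 1 := ⟨n - 1, by omega⟩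
  have hd : 2 ≤ d := by omega
  have hd2 : (2 : ℝ) ≤ d := by exact_mod_cast hd
  refine ⟨⟨fun h c hc => lossFree_of hc
    (Pool.Agent.Y254.EL.sub_of_crit hd (fun ε hε => km_of h ε hε) hc),
    fun h => critical_of (by omega) h⟩, fun c hc => ?_⟩
  have e1 : 2 * (((d + 1 : ℕ) : ℝ) - 1) / ((d + 1 : ℕ) : ℝ) = 2 * (d : ℝ) / ((d : ℝ) + 1) := by
    push_cast; ring
  rw [e1] at hc
  have hc1 : 1 < c := by
    refine lt_of_le_of_lt ?_ hc
    rw [le_div_iff₀ (by linarith)]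
    linarith
  exact lossFree_of hc1 (Pool.Agent.Y244.WR.wolff_max hd hc)

end Pool.Agent.Results.MP_5168f5_an.SubcriticalWithoutLoss
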