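import Pool.Agent.V1282.TW.Defs

set_option autoImplicit false
set_option maxHeartbeats 1000000

/-!
# MP_5168f5: the Kakeya maximal estimate for towers of families of lines

Work in `ℝ^n = ℝ^d × ℝ`, `n = d + 1`, with its Euclidean norm (`Space d`).  A family of lines, one line
`{(b v + t v, t)}` for each slope `v` in a set `B` of the unit ball of `ℝ^d`, is given by a map `b`; its
direction is `dir v = (v, 1)/√(1+|v|²)`.  `lineMax δ b f v` is the supremum of the averages of `|f|` over
the `δ`-tubes of length one with axis on the line number `v`.  The Kakeya maximal conjecture is the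
estimate below for *all* families.

A map `b` on a set `B` of slopes is a *tower* (`Tower`, in `Pool.Agent.V1282.TW.Defs`) if it is built
from *stages* by two operations: countable decompositions of `B`, with summable multiplicities, and
*skew products*.  In a skew product the slopes are split, `ℝ^d = ℝ^{d1} × ℝ^{d2}` (an arbitrary
orthogonal splitting), the first component of `b(v1, v2)` is `b1(v1)` for a tower `b1` of dimension
`d1`, and the second one is `b2(v1)(v2)`, where for each `v1` the map `b2(v1)` is a tower of dimension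
`d2`; its dependence on `v1` is completely arbitrary (measurable).  The stages are

* arbitrary families of lines in the plane (`d = 1`, any measurable `b`);
* families with at most `M` lines through almost every point, given by a map that is Lipschitz on
  countably many pieces (without any bound for the Lipschitz constants);
* section-monotone families;
* families with Taylor constants `A k` of all orders `k` (in particular smooth families);
* any family that satisfies the Kakeya maximal estimate with the constants `c ε`, for all `ε`.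

For all towers, and for all families (measurable or not) that are `δ`-close to a tower, the Kakeya
maximal estimate holds at the critical exponent `n` with a loss `δ^(-ε)`, for every `ε > 0`, with a
constant `C M`, where `M` is the multiplicity and `C` depends on `n`, `ε` and the constants `A`, `c` of
the stages only.  In particular the class of the families that satisfy the maximal estimate is closed
under skew products: no regularity of the dependence on `v1` is needed.
-/

open MeasureTheory Set ENNReal NNReal Metric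

namespace Pool.Agent.Results.MP_5168f5_an.TowerFamilies

open Pool.Agent.V1282.TW
open Pool.Agent.TH426.Kt (KTower AllB Rough Pw)

/-- **The Kakeya maximal estimate for towers of families of lines**, at the exponent `n = d + 1`, for
all `δ < 1`, with the loss `δ^(-ε)`, for all families that are `δ`-close to a tower. -/
theorem result (d : ℕ) (hd : 1 ≤ d) (ε : ℝ) (hε : 0 < ε) (A : ℕ → ℝ) (c : ℝ → ℕ → ℝ≥0) :
    ∃ C : ℝ, 0 < C ∧ ∀ (M : ℝ≥0) (B : Set (Vec d)) (b : Vec d → Vec d),
      Tower (Stage A c) d M B b →
      ∀ (δ : ℝ) (b' : Vec d → Vec d), 0 < δ → δ < 1 → (∀ v ∈ B, ‖b' v - b v‖ ≤ δ) →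
      ∀ f : Space d → ℝ, AEMeasurable f volume →
        ∫⁻ v in B, lineMax δ b' f v ^ (d + 1)
          ≤ ENNReal.ofReal (C * M * δ ^ (-ε)) * ∫⁻ y, ‖f y‖ₑ ^ (d + 1) := by
  have hd0 : (0 : ℝ) < d := by exact_mod_cast hd
  obtain ⟨c', hc', hbd⟩ := genB_bd A c (ε / d) (by positivity)
  have hct : Pool.Agent.TH426.Kt.cc c' (Pool.Agent.TH426.Kt.KK 1) d ≠ ∞ :=
    Pool.Agent.TH426.Kt.cc_ne_top hc' (Pool.Agent.TH426.Kt.KK_ne_top zero_le_one) d
  have hcbt : Pool.Agent.TH426.Kt.cb d ^ ((d : ℝ) + 1) ≠ ∞ :=
    ENNReal.rpow_ne_top_of_nonneg (by positivity) (Pool.Agent.TH426.Kt.cb_ne_top d)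
  set X : ℝ≥0∞ := Pool.Agent.TH426.Kt.cb d ^ ((d : ℝ) + 1) *
    Pool.Agent.TH426.Kt.cc c' (Pool.Agent.TH426.Kt.KK 1) d with hX
  have hXt : X ≠ ∞ := ENNReal.mul_ne_top hcbt hct
  refine ⟨X.toReal + 1, by positivity, ?_⟩
  intro M B b hT δ b' hδ hδ1 hbb f hf
  have hK : KTower (GenB A c) d (d + 1) M B b := by
    refine toK ?_ hT
    intro d M B b hd hB hB1 hb hS
    cases hS with
    | planar => exact Or.inl (AllB.rough (Rough.planar hB hB1 hb))
    | overlap hM hL hO =>
      refine Or.inl (AllB.rough (Rough.overlap hd hM hB hB1 hb hL ?_))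
      filter_upwards [hO] with t ht _ using ht
    | monotone hS =>
      refine Or.inl (AllB.rough (Rough.monotone hd hB hB1 hb ?_))
      filter_upwards [hS] with t ht _ using ht
    | taylor h => exact Or.inl (AllB.smooth hd hB hB1 hb h)
    | maximal h => exact Or.inr ⟨rfl, hd, hB, hB1, hb, h⟩
  have h1 : Pw (ε / d) δ ≠ 0 := (lt_of_lt_of_le one_pos
    (Pool.Agent.TH426.Kt.one_le_Pw (by positivity) hδ hδ1)).ne'
  have key := Pool.Agent.TH426.Kt.tower_lmb (genB_reg A c) hδ hδ1 MeasurableSet.univ hc' h1
    (Pool.Agent.TH426.Kt.Pw_ne_top _ _) (fun k => hbd δ k hδ hδ1) hK hbb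
  have e1 : ∀ v, lineMax δ b' f v = lineMax δ b' (hf.mk f) v := by
    intro v
    unfold lineMax
    congr 1
    ext s
    congr 1
    apply lintegral_congr_ae
    filter_upwards [ae_restrict_of_ae hf.ae_eq_mk] with y hy
    rw [hy]
  have e2 : ∫⁻ y, ‖f y‖ₑ ^ (d + 1) = ∫⁻ y, ‖hf.mk f y‖ₑ ^ (d + 1) := by
    apply lintegral_congr_ae
    filter_upwards [hf.ae_eq_mk] with y hy
    rw [hy]
  have h2 := key (hf.mk f) hf.measurable_mk (by
    intro y t ht
    exact absurd (mem_univ t) ht)
  have e3 : ∀ x : ℝ≥0∞, x ^ ((1 : ℝ) * ((d : ℝ) + 1)) = x ^ (d + 1) := by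
    intro x
    rw [one_mul, ← ENNReal.rpow_natCast]
    congr 1
    push_cast
    ring
  have e4 : ∀ x : ℝ≥0∞, x ^ ((d : ℝ) + 1) = x ^ (d + 1) := by
    intro x
    rw [← ENNReal.rpow_natCast]
    congr 1
    push_cast
    ring
  have e5 : Pw (ε / d) δ ^ d = ENNReal.ofReal (δ ^ (-ε)) := by
    show ENNReal.ofReal (δ ^ (-(ε / d))) ^ d = _
    rw [← ENNReal.ofReal_pow (by positivity), ← Real.rpow_natCast, ← Real.rpow_mul hδ.le]
    congr 2
    field_simp
  simp only [e1]
  rw [e2]
  calc ∫⁻ v in B, lineMax δ b' (hf.mk f) v ^ (d + 1)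
      = ∫⁻ v in B, Pool.Agent.H803R2.KakFTO.lineMax δ b' (hf.mk f) v ^ ((1 : ℝ) * ((d : ℝ) + 1)) := by
        apply lintegral_congr
        intro v
        rw [e3]
        rfl
    _ ≤ _ := h2
    _ = X * M * Pw (ε / d) δ ^ d * ∫⁻ y, ‖hf.mk f y‖ₑ ^ (d + 1) := by
        rw [ENNReal.rpow_one]
        simp only [e4, hX]
    _ ≤ ENNReal.ofReal ((X.toReal + 1) * M * δ ^ (-ε)) * ∫⁻ y, ‖hf.mk f y‖ₑ ^ (d + 1) := by
        gcongr
        rw [e5, ENNReal.ofReal_mul (by positivity), ENNReal.ofReal_mul (by positivity),
          ENNReal.ofReal_coe_nnreal]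
        gcongr
        calc X = ENNReal.ofReal X.toReal := (ENNReal.ofReal_toReal hXt).symm
          _ ≤ _ := ENNReal.ofReal_le_ofReal (by linarith)

end Pool.Agent.Results.MP_5168f5_an.TowerFamilies
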